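import Mathlib
import Pool.Agent.H964.LF.Stm

set_option autoImplicit false

/-!
Project LF (helper964): the core inequality, by helper261.
-/

namespace Pool.Agent.H261.LF

open Pool.Agent.H964.LF MeasureTheory
open scoped ENNReal

noncomputable section

theorem par_ctr {d n : ℕ} (τ : Tor d n) (K : ℕ) (k : Site d) (hK : 2 ∣ K) :
    par (ctr τ K k) = par τ := by
  unfold par ctr
  rw [← sub_eq_zero, ← Finset.sum_sub_distrib]
  apply Finset.sum_eq_zero
  intro i _
  rw [map_add, add_sub_cancel_left, map_natCast]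
  exact (ZMod.natCast_eq_zero_iff _ _).2 (hK.mul_right _)

theorem Sk_sub {d n : ℕ} {τ : Tor d n} {K J R : ℕ} (hC : Conf τ K J R) : Sk τ K J ⊆ od d n := by
  intro v hv
  obtain ⟨k, _, rfl⟩ := Finset.mem_image.1 hv
  refine Finset.mem_filter.2 ⟨Finset.mem_univ _, ?_⟩
  rw [par_ctr τ K k (Dvd.dvd.trans (by norm_num) hC.hK)]
  exact hC.hτ

theorem ctr_mem {d n : ℕ} {τ : Tor d n} {K J : ℕ} {k : Site d} (hk : k ∈ Grid d J) :
    ctr τ K k ∈ Sk τ K J := Finset.mem_image_of_mem _ hk

theorem sx_mem {d J : ℕ} {k : Site d} {i : Fin d} (hk : k ∈ Grid d J) (hi : k i + 1 < 2 ^ J) :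
    sx k i ∈ Grid d J := by
  unfold Grid at *
  rw [Fintype.mem_piFinset] at *
  intro j
  rw [Finset.mem_range]
  have h := Finset.mem_range.1 (hk j)
  unfold sx
  rw [Pi.add_apply]
  by_cases hj : j = i
  · subst hj
    rw [Pi.single_eq_same]
    exact hi
  · rw [Pi.single_eq_of_ne hj]
    simpa using h

theorem upd_Sk {d n : ℕ} {τ : Tor d n} {K J : ℕ} (x : Tor d n → ℝ)
    (u : (i : Yk τ K J) → ℝ) (v : Tor d n) (hv : v ∈ Sk τ K J) :
    Function.updateFinset x (Yk τ K J) u v = x v := by
  have h : v ∉ Yk τ K J := fun h => (Finset.mem_sdiff.1 h).2 hv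
  rw [Function.updateFinset_def]
  simp [h]

theorem meas_Ext {d n : ℕ} (v : Tor d n) (a b : Fin d × Bool) :
    MeasurableSet {x : Tor d n → ℝ | Ext x v a b} := by
  have h : {x : Tor d n → ℝ | Ext x v a b} =
      (⋂ c : Fin d × Bool, ⋂ _ : c ≠ a, {x : Tor d n → ℝ | x (nb v c) + 1 / 16 ≤ x (nb v a)}) ∩
      (⋂ c : Fin d × Bool, ⋂ _ : c ≠ b, {x : Tor d n → ℝ | x (nb v b) + 1 / 16 ≤ x (nb v c)}) := by
    ext x
    simp only [Pool.Agent.H964.LF.Ext, Set.mem_ofPred_eq, Set.mem_inter_iff, Set.mem_iInter]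
  rw [h]
  refine MeasurableSet.inter ?_ ?_
  · refine MeasurableSet.iInter (fun c => MeasurableSet.iInter (fun _ => ?_))
    exact measurableSet_le ((measurable_pi_apply _).add_const _) (measurable_pi_apply _)
  · refine MeasurableSet.iInter (fun c => MeasurableSet.iInter (fun _ => ?_))
    exact measurableSet_le ((measurable_pi_apply _).add_const _) (measurable_pi_apply _)

theorem meas_Nev {d n : ℕ} (τ : Tor d n) (K : ℕ) (k : Site d) (i : Fin d) :
    MeasurableSet (Nev τ K k i) := by
  have h : Nev τ K k i = ⋂ s : ℕ, ⋂ _ : s < K / 2,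
      ({x : Tor d n → ℝ | Ext x (mv τ K k i s) (i, true) (i, false)} ∪
        {x : Tor d n → ℝ | Ext x (mv τ K k i s) (i, false) (i, true)}) := by
    ext x
    simp only [Nev, Set.mem_ofPred_eq, Set.mem_iInter, Set.mem_union]
  rw [h]
  exact MeasurableSet.iInter (fun s => MeasurableSet.iInter (fun _ =>
    (meas_Ext _ _ _).union (meas_Ext _ _ _)))

/-- an event of the skeleton can be taken out of the marginal -/
theorem mg_ind {d n : ℕ} {τ : Tor d n} {K J : ℕ} (E : Set (Tor d n → ℝ)) (hE : dsk τ K J E)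
    (f : (Tor d n → ℝ) → ℝ≥0∞) (x : Tor d n → ℝ) :
    mg (Yk τ K J) (E.indicator f) x = E.indicator (mg (Yk τ K J) f) x := by
  classical
  have h : ∀ u : (i : Yk τ K J) → ℝ, Function.updateFinset x (Yk τ K J) u ∈ E ↔ x ∈ E :=
    fun u => hE _ _ (fun v hv => upd_Sk x u v hv)
  unfold mg lmarginal
  by_cases hx : x ∈ E
  · rw [Set.indicator_of_mem hx]
    refine lintegral_congr (fun u => ?_)
    rw [Set.indicator_of_mem ((h u).2 hx)]
  · rw [Set.indicator_of_notMem hx]
    have : ∀ u : (i : Yk τ K J) → ℝ, E.indicator f (Function.updateFinset x (Yk τ K J) u) = 0 :=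
      fun u => Set.indicator_of_notMem (fun hh => hx ((h u).1 hh)) _
    simp [this]

/-- two-step integration -/
theorem mg_od {d n : ℕ} {p τ : Tor d n} {K J R : ℕ} (hd : 1 ≤ d) (hBAS : S_BAS)
    (hC : Conf τ K J R) (E : Set (Tor d n → ℝ)) (hE : dsk τ K J E) (hEm : MeasurableSet E) :
    mg (od d n) (E.indicator (FF p)) 0 =
      mg (Sk τ K J) (E.indicator (mg (Yk τ K J) (FF p))) 0 := by
  have hFm : Measurable (FF p) := (hBAS d n hd).2.2.1 p
  have hdis : Disjoint (Sk τ K J) (Yk τ K J) := Finset.disjoint_sdiff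
  have hun : Sk τ K J ∪ Yk τ K J = od d n := Finset.union_sdiff_of_subset (Sk_sub hC)
  have h1 := lmarginal_union (fun _ : Tor d n => (volume : Measure ℝ)) (E.indicator (FF p))
    (hFm.indicator hEm) hdis
  unfold mg
  rw [← hun, h1]
  congr 1
  funext x
  exact mg_ind E hE (FF p) x

/-- weighted exponential inequality -/
theorem jensen {Ω : Type*} [MeasurableSpace Ω] (ν : Measure Ω) (F : Ω → ℝ≥0∞) (Z : Ω → ℝ)
    (hF : Measurable F) (hZ : Measurable Z) (hZ0 : ∀ ω, 0 ≤ Z ω) (Γ : ℝ) (hΓ : 0 ≤ Γ)
    (h : ENNReal.ofReal Γ * ∫⁻ ω, F ω ∂ν ≤ ∫⁻ ω, F ω * ENNReal.ofReal (Z ω) ∂ν) :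
    (∫⁻ ω, F ω ∂ν) * ENNReal.ofReal (Real.exp (2 * Γ)) ≤
      ∫⁻ ω, F ω * ENNReal.ofReal (Real.exp (2 * Z ω)) ∂ν := by
  set M := ∫⁻ ω, F ω ∂ν with hM
  by_cases hMt : M = ⊤
  · have h1 : M ≤ ∫⁻ ω, F ω * ENNReal.ofReal (Real.exp (2 * Z ω)) ∂ν := by
      rw [hM]
      refine lintegral_mono (fun ω => ?_)
      have h2 : (1 : ℝ≥0∞) ≤ ENNReal.ofReal (Real.exp (2 * Z ω)) := by
        rw [← ENNReal.ofReal_one]
        apply ENNReal.ofReal_le_ofReal
        exact Real.one_le_exp (by have := hZ0 ω; linarith)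
      calc F ω = F ω * 1 := (mul_one _).symm
        _ ≤ _ := mul_le_mul_right h2 _
    rw [hMt] at h1
    rw [top_le_iff.1 h1]
    exact le_top
  · -- the pointwise inequality
    have hpt : ∀ ω, F ω * ENNReal.ofReal (Real.exp (2 * Γ)) +
        F ω * ENNReal.ofReal (Z ω) * ENNReal.ofReal (2 * Real.exp (2 * Γ)) ≤
        F ω * ENNReal.ofReal (Real.exp (2 * Z ω)) +
          F ω * ENNReal.ofReal (2 * Γ * Real.exp (2 * Γ)) := by
      intro ω
      rw [mul_assoc, ← ENNReal.ofReal_mul (hZ0 ω), ← mul_add, ← mul_add,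
        ← ENNReal.ofReal_add (Real.exp_pos _).le (by have := hZ0 ω; positivity),
        ← ENNReal.ofReal_add (Real.exp_pos _).le (by positivity)]
      refine mul_le_mul_right (ENNReal.ofReal_le_ofReal ?_) _
      have h1 := Real.add_one_le_exp (2 * Z ω - 2 * Γ)
      have h2 : Real.exp (2 * Z ω) = Real.exp (2 * Γ) * Real.exp (2 * Z ω - 2 * Γ) := by
        rw [← Real.exp_add]; ring_nf
      rw [h2]
      nlinarith [Real.exp_pos (2 * Γ)]
    have hint := lintegral_mono (μ := ν) hpt
    have hm1 : Measurable (fun ω => F ω * ENNReal.ofReal (Real.exp (2 * Z ω))) :=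
      hF.mul (ENNReal.measurable_ofReal.comp (Real.measurable_exp.comp (hZ.const_mul 2)))
    have hm2 : Measurable (fun ω => F ω * ENNReal.ofReal (Z ω)) :=
      hF.mul (ENNReal.measurable_ofReal.comp hZ)
    rw [lintegral_add_left (hF.mul_const _), lintegral_add_left hm1,
      lintegral_mul_const _ hF, lintegral_mul_const _ hF,
      lintegral_mul_const _ hm2, ← hM] at hint
    have h3 : M * ENNReal.ofReal (2 * Γ * Real.exp (2 * Γ)) ≤
        (∫⁻ ω, F ω * ENNReal.ofReal (Z ω) ∂ν) * ENNReal.ofReal (2 * Real.exp (2 * Γ)) := by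
      have e : ENNReal.ofReal (2 * Γ * Real.exp (2 * Γ)) =
          ENNReal.ofReal Γ * ENNReal.ofReal (2 * Real.exp (2 * Γ)) := by
        rw [← ENNReal.ofReal_mul hΓ]; congr 1; ring
      rw [e, ← mul_assoc, mul_comm M]
      exact mul_le_mul_left h _
    have hfin : M * ENNReal.ofReal (2 * Γ * Real.exp (2 * Γ)) ≠ ⊤ :=
      ENNReal.mul_ne_top hMt ENNReal.ofReal_ne_top
    have h4 : M * ENNReal.ofReal (Real.exp (2 * Γ)) + M * ENNReal.ofReal (2 * Γ * Real.exp (2 * Γ)) ≤
        ∫⁻ ω, F ω * ENNReal.ofReal (Real.exp (2 * Z ω)) ∂ν +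
          M * ENNReal.ofReal (2 * Γ * Real.exp (2 * Γ)) :=
      (add_le_add_right h3 _).trans hint
    exact (ENNReal.add_le_add_iff_right hfin).1 h4

open Classical in
theorem t_CORE : S_PLM → S_BAS → S_DEC → S_GAIN → S_CORE := by
  intro hPLM hBAS hDEC hGAIN d n p τ K J R E1 E2 Γ hd hC hp hE1 hE2 hs1 hs2 hΓ H
  have hFm : Measurable (FF p) := (hBAS d n hd).2.2.1 p
  have hpo : par p = 1 := (Finset.mem_filter.1 (Sk_sub hC hp)).2
  set Y := Yk τ K J with hY
  set S := Sk τ K J with hS
  set M : (Tor d n → ℝ) → ℝ≥0∞ := mg Y (FF p) with hMdef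
  have hMm : Measurable M := hFm.lmarginal _
  -- Step 1
  have step1 : ∀ x ∈ E1, ∀ y ∈ E2,
      ENNReal.ofReal (Real.exp (2 * Γ)) * M x * M y ≤ M (mid x y) ^ 2 := by
    intro x hx y hy
    by_cases hMx : M x = 0
    · rw [hMx, mul_zero, zero_mul]; exact zero_le
    by_cases hMy : M y = 0
    · rw [hMy, mul_zero]; exact zero_le
    have hH := H x hx y hy hMx hMy
    set w : Site d → Fin d → ℝ := fun k i => ((x (ctr τ K (sx k i)) - y (ctr τ K (sx k i))) -
          (x (ctr τ K k) - y (ctr τ K k))) ^ 2 / (768 * K) with hw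
    have hw0 : ∀ k i, 0 ≤ w k i := fun k i => by rw [hw]; positivity
    set Z : (Tor d n → ℝ) → ℝ := fun x' => ∑ k ∈ Grid d J, ∑ i : Fin d,
      (if k i + 1 < 2 ^ J then (Nev τ K k i).indicator (fun _ => w k i) x' else 0) with hZ
    have hZm : Measurable Z := by
      refine Finset.measurable_sum _ (fun k _ => Finset.measurable_sum _ (fun i _ => ?_))
      by_cases hki : k i + 1 < 2 ^ J
      · simp only [hki, if_true]
        exact measurable_const.indicator (meas_Nev τ K k i)
      · simp only [hki, if_false]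
        exact measurable_const
    have hZ0 : ∀ x', 0 ≤ Z x' := by
      intro x'
      refine Finset.sum_nonneg (fun k _ => Finset.sum_nonneg (fun i _ => ?_))
      split_ifs
      · exact Set.indicator_nonneg (fun _ _ => hw0 k i) _
      · exact le_rfl
    -- the two functions
    set A : Set (Tor d n → ℝ) := {x' | ∀ v ∈ S, x' v = x v} with hA
    set B : Set (Tor d n → ℝ) := {y' | ∀ v ∈ S, y' v = y v} with hB
    have hmeas : ∀ z : Tor d n → ℝ, MeasurableSet {x' : Tor d n → ℝ | ∀ v ∈ S, x' v = z v} := by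
      intro z
      have e : {x' : Tor d n → ℝ | ∀ v ∈ S, x' v = z v} =
          ⋂ v : Tor d n, ⋂ _ : v ∈ S, {x' : Tor d n → ℝ | x' v = z v} := by
        ext x'; simp only [Set.mem_ofPred_eq, Set.mem_iInter]
      rw [e]
      refine MeasurableSet.iInter (fun v => MeasurableSet.iInter (fun _ => ?_))
      exact measurableSet_eq_fun (measurable_pi_apply v) measurable_const
    have hAm : MeasurableSet A := hmeas x
    have hBm : MeasurableSet B := hmeas y
    have hfm : Measurable (fun x' => FF p x' * ENNReal.ofReal (Real.exp (2 * Z x'))) :=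
      hFm.mul (ENNReal.measurable_ofReal.comp (Real.measurable_exp.comp (hZm.const_mul 2)))
    have hPL := hPLM (Tor d n) Y
      (A.indicator (fun x' => FF p x' * ENNReal.ofReal (Real.exp (2 * Z x'))))
      (B.indicator (FF p)) (FF p) (hfm.indicator hAm) (hFm.indicator hBm) hFm
      (by
        intro x' y'
        by_cases hxA : x' ∈ A
        swap
        · rw [Set.indicator_of_notMem hxA, zero_mul]; exact zero_le
        by_cases hyB : y' ∈ B
        swap
        · rw [Set.indicator_of_notMem hyB, mul_zero]; exact zero_le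
        rw [Set.indicator_of_mem hxA, Set.indicator_of_mem hyB]
        have hG := hGAIN d n p τ K J R x' y' hd hC
        have hsum : (∑ k ∈ Grid d J, ∑ i : Fin d,
            if k i + 1 < 2 ^ J ∧ x' ∈ Nev τ K k i then
              ((x' (ctr τ K (sx k i)) - y' (ctr τ K (sx k i))) -
                (x' (ctr τ K k) - y' (ctr τ K k))) ^ 2 / (768 * K) else 0) = Z x' := by
          rw [hZ]
          refine Finset.sum_congr rfl (fun k hk => Finset.sum_congr rfl (fun i _ => ?_))
          by_cases hki : k i + 1 < 2 ^ J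
          · by_cases hN : x' ∈ Nev τ K k i
            · rw [if_pos ⟨hki, hN⟩, if_pos hki, Set.indicator_of_mem hN,
                hxA _ (ctr_mem (sx_mem hk hki)), hyB _ (ctr_mem (sx_mem hk hki)),
                hxA _ (ctr_mem hk), hyB _ (ctr_mem hk)]
            · rw [if_neg (fun h => hN h.2), if_pos hki, Set.indicator_of_notMem hN]
          · rw [if_neg (fun h => hki h.1), if_neg hki]
        rw [hsum] at hG
        calc FF p x' * ENNReal.ofReal (Real.exp (2 * Z x')) * FF p y'
            = FF p x' * FF p y' * ENNReal.ofReal (Real.exp (2 * Z x')) := by ring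
          _ ≤ FF p (mid x' y') ^ 2 := hG)
      x y
    -- the values of the marginals
    have hgy : mg Y (B.indicator (FF p)) y = M y := by
      rw [hMdef]
      unfold mg lmarginal
      refine lintegral_congr (fun u => ?_)
      rw [Set.indicator_of_mem]
      exact fun v hv => upd_Sk y u v hv
    have hfx : mg Y (A.indicator (fun x' => FF p x' * ENNReal.ofReal (Real.exp (2 * Z x')))) x =
        ∫⁻ u : (i : Y) → ℝ, FF p (Function.updateFinset x Y u) *
          ENNReal.ofReal (Real.exp (2 * Z (Function.updateFinset x Y u)))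
          ∂(Measure.pi fun _ => volume) := by
      unfold mg lmarginal
      refine lintegral_congr (fun u => ?_)
      rw [Set.indicator_of_mem]
      exact fun v hv => upd_Sk x u v hv
    have hu : Measurable (Function.updateFinset x Y : ((i : Y) → ℝ) → _) := measurable_updateFinset
    -- the hypothesis
    have hHyp : ENNReal.ofReal Γ * ∫⁻ u : (i : Y) → ℝ, FF p (Function.updateFinset x Y u)
        ∂(Measure.pi fun _ => volume) ≤
        ∫⁻ u : (i : Y) → ℝ, FF p (Function.updateFinset x Y u) *
          ENNReal.ofReal (Z (Function.updateFinset x Y u)) ∂(Measure.pi fun _ => volume) := by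
      refine le_trans hH (le_of_eq ?_)
      have e1 : ∀ u : (i : Y) → ℝ, FF p (Function.updateFinset x Y u) *
          ENNReal.ofReal (Z (Function.updateFinset x Y u)) =
          ∑ k ∈ Grid d J, ∑ i : Fin d, (if k i + 1 < 2 ^ J then
            ENNReal.ofReal (w k i) * (Nev τ K k i).indicator (FF p) (Function.updateFinset x Y u)
            else 0) := by
        intro u
        rw [hZ]
        simp only
        rw [ENNReal.ofReal_sum_of_nonneg (fun k _ => Finset.sum_nonneg (fun i _ => by
          split_ifs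
          · exact Set.indicator_nonneg (fun _ _ => hw0 k i) _
          · exact le_rfl)), Finset.mul_sum]
        refine Finset.sum_congr rfl (fun k _ => ?_)
        rw [ENNReal.ofReal_sum_of_nonneg (fun i _ => by
          split_ifs
          · exact Set.indicator_nonneg (fun _ _ => hw0 k i) _
          · exact le_rfl), Finset.mul_sum]
        refine Finset.sum_congr rfl (fun i _ => ?_)
        by_cases hki : k i + 1 < 2 ^ J
        · rw [if_pos hki, if_pos hki]
          by_cases hN : Function.updateFinset x Y u ∈ Nev τ K k i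
          · rw [Set.indicator_of_mem hN, Set.indicator_of_mem hN, mul_comm]
          · rw [Set.indicator_of_notMem hN, Set.indicator_of_notMem hN, ENNReal.ofReal_zero,
              mul_zero, mul_zero]
        · rw [if_neg hki, if_neg hki, ENNReal.ofReal_zero, mul_zero]
      have hmt : ∀ k i, Measurable (fun u : (i : Y) → ℝ => (if k i + 1 < 2 ^ J then
            ENNReal.ofReal (w k i) * (Nev τ K k i).indicator (FF p) (Function.updateFinset x Y u)
            else 0)) := by
        intro k i
        by_cases hki : k i + 1 < 2 ^ J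
        · simp only [hki, if_true]
          exact ((hFm.indicator (meas_Nev τ K k i)).comp hu).const_mul _
        · simp only [hki, if_false]
          exact measurable_const
      rw [lintegral_congr e1, lintegral_finsetSum _
        (fun k _ => Finset.measurable_sum _ (fun i _ => hmt k i))]
      refine Finset.sum_congr rfl (fun k _ => ?_)
      rw [lintegral_finsetSum _ (fun i _ => hmt k i)]
      refine Finset.sum_congr rfl (fun i _ => ?_)
      by_cases hki : k i + 1 < 2 ^ J
      · simp only [hki, if_true]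
        have hmm : Measurable (fun u : (i : Y) → ℝ =>
            (Nev τ K k i).indicator (FF p) (Function.updateFinset x Y u)) :=
          (hFm.indicator (meas_Nev τ K k i)).comp hu
        rw [lintegral_const_mul _ hmm]
        rfl
      · simp only [hki, if_false]
        simp
    have hJ := jensen (Measure.pi fun _ : Y => (volume : Measure ℝ))
      (fun u => FF p (Function.updateFinset x Y u)) (fun u => Z (Function.updateFinset x Y u))
      (hFm.comp hu) (hZm.comp hu) (fun u => hZ0 _) Γ hΓ hHyp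
    have hJ' : M x * ENNReal.ofReal (Real.exp (2 * Γ)) ≤
        mg Y (A.indicator (fun x' => FF p x' * ENNReal.ofReal (Real.exp (2 * Z x')))) x := by
      rw [hfx]; exact hJ
    calc ENNReal.ofReal (Real.exp (2 * Γ)) * M x * M y
        = M x * ENNReal.ofReal (Real.exp (2 * Γ)) * M y := by ring
      _ ≤ mg Y (A.indicator (fun x' => FF p x' * ENNReal.ofReal (Real.exp (2 * Z x')))) x *
          mg Y (B.indicator (FF p)) y := by rw [hgy]; exact mul_le_mul_left hJ' _
      _ ≤ M (mid x y) ^ 2 := hPL
  -- Step 2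
  have hodd : ∀ E : Set (Tor d n → ℝ), dsk τ K J E → dodd E := by
    intro E hE a b hab
    exact hE a b (fun v hv => hab v (Finset.mem_filter.1 (Sk_sub hC hv)).2)
  have hv : ∀ E : Set (Tor d n → ℝ), MeasurableSet E → dsk τ K J E →
      vl p E = mg S (E.indicator M) 0 := by
    intro E hE hsE
    rw [hDEC d n p E 0 hd hpo hE (hodd E hsE)]
    exact mg_od hd hBAS hC E hsE hE
  have hvu : vl p Set.univ = mg S M 0 := by
    have := hv Set.univ MeasurableSet.univ (fun a b _ => by simp)
    rw [Set.indicator_univ] at this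
    exact this
  have hPL2 := hPLM (Tor d n) S
    (fun x => ENNReal.ofReal (Real.exp (2 * Γ)) * E1.indicator M x) (E2.indicator M) M
    ((hMm.indicator hE1).const_mul _) (hMm.indicator hE2) hMm
    (by
      intro x y
      by_cases hx : x ∈ E1
      swap
      · rw [Set.indicator_of_notMem hx, mul_zero, zero_mul]; exact zero_le
      by_cases hy : y ∈ E2
      swap
      · rw [Set.indicator_of_notMem hy, mul_zero]; exact zero_le
      rw [Set.indicator_of_mem hx, Set.indicator_of_mem hy]
      exact step1 x hx y hy)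
    0 0
  have hmid : mid (0 : Tor d n → ℝ) 0 = 0 := by
    funext v; simp [mid]
  rw [hmid] at hPL2
  have hcm : mg S (fun x => ENNReal.ofReal (Real.exp (2 * Γ)) * E1.indicator M x) 0 =
      ENNReal.ofReal (Real.exp (2 * Γ)) * mg S (E1.indicator M) 0 := by
    unfold mg lmarginal
    exact lintegral_const_mul _ ((hMm.indicator hE1).comp measurable_updateFinset)
  rw [hcm] at hPL2
  rw [hv E1 hE1 hs1, hv E2 hE2 hs2, hvu]
  calc mg S (E1.indicator M) 0 * mg S (E2.indicator M) 0 * ENNReal.ofReal (Real.exp (2 * Γ))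
      = ENNReal.ofReal (Real.exp (2 * Γ)) * mg S (E1.indicator M) 0 * mg S (E2.indicator M) 0 := by
        ring
    _ ≤ _ := hPL2

end

end Pool.Agent.H261.LF
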